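import Pool.Agent.Run7.h442.HD.Iface

/-! Piece GRID of project HD: the diagonal of the resolvent at different distances. -/

set_option autoImplicit false

open scoped BigOperators Matrix
open MeasureTheory

namespace Run7.h842.HD

open Pool.Agent.Run7.h47 hiding mm mf ze V1 V2 ff
open Pool.Agent.W788.MFP.Four Pool.Agent.W788.BK
open Run7.h442.HD

variable {d L : ℕ} [NeZero L]

/-- the hermitian part -/
noncomputable def HH (σ E : ℝ) (V : T d L → ℝ) : Matrix (T d L) (T d L) ℂ :=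
  XX (X0 E) (AS σ) V

theorem HH_herm (σ E : ℝ) (V : T d L → ℝ) : (HH σ E V).IsHermitian :=
  XX_herm (X0_herm E) (AS_herm σ) V

theorem HZ_HH (σ E t : ℝ) (V : T d L → ℝ) :
    HZ σ E t V = HH σ E V - ((t : ℂ) * Complex.I) • (1 : Matrix (T d L) (T d L) ℂ) := HZ_eq σ E t V

theorem col_nsq {σ E s : ℝ} (hs : 0 < s) (V : T d L → ℝ) (x : T d L) :
    nsq (R σ E s V *ᵥ (Pi.single x (1 : ℂ))) = (R σ E s V x x).im / s := by
  rw [← R_ward hs, Matrix.mulVec_single_one]
  unfold nsq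
  refine Finset.sum_congr rfl fun b _ => ?_
  rw [R_symm]
  rfl

/-- the two columns in terms of a third vector -/
theorem two_cols {σ E s s' : ℝ} (hs' : 0 < s') (hs : 0 < s) (V : T d L → ℝ) (x : T d L) :
    ∃ w : T d L → ℂ, R σ E s' V *ᵥ (Pi.single x (1 : ℂ)) = HZ σ E s V *ᵥ w ∧
      R σ E s V *ᵥ (Pi.single x (1 : ℂ)) = HZ σ E s' V *ᵥ w ∧
      w = R σ E s V *ᵥ (R σ E s' V *ᵥ (Pi.single x (1 : ℂ))) := by
  refine ⟨R σ E s V *ᵥ (R σ E s' V *ᵥ (Pi.single x (1 : ℂ))), ?_, ?_, rfl⟩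
  · rw [Matrix.mulVec_mulVec _ (HZ σ E s V), HZ_mul hs, Matrix.one_mulVec]
  · -- HZ s' commutes with R s
    have h1 : HZ σ E s' V * R σ E s V = R σ E s V * HZ σ E s' V := by
      have h2 : HZ σ E s' V = HZ σ E s V + (((s : ℂ) - s') * Complex.I) •
          (1 : Matrix (T d L) (T d L) ℂ) := by
        rw [HZ_HH, HZ_HH]
        ext a b
        simp only [Matrix.sub_apply, Matrix.add_apply, Matrix.smul_apply, smul_eq_mul]
        ring
      rw [h2, add_mul, mul_add, HZ_mul hs, mul_HZ hs, smul_mul_assoc, one_mul, mul_smul_comm,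
        mul_one]
    rw [Matrix.mulVec_mulVec, Matrix.mulVec_mulVec, h1, mul_assoc, HZ_mul hs', mul_one]

theorem grid : S_GRID := by
  intro d L _ σ E s s' V x hs' hss
  have hs : 0 < s := lt_of_lt_of_le hs' hss
  obtain ⟨w, hw1, hw2, hw3⟩ := two_cols (σ := σ) (E := E) hs' hs V x
  have n1 : nsq (R σ E s' V *ᵥ (Pi.single x (1 : ℂ))) =
      nsq (HH σ E V *ᵥ w) + s ^ 2 * nsq w := by
    rw [hw1, HZ_HH]
    exact nsq_shift (HH_herm σ E V) s w
  have n2 : nsq (R σ E s V *ᵥ (Pi.single x (1 : ℂ))) =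
      nsq (HH σ E V *ᵥ w) + s' ^ 2 * nsq w := by
    rw [hw2, HZ_HH]
    exact nsq_shift (HH_herm σ E V) s' w
  rw [col_nsq hs'] at n1
  rw [col_nsq hs] at n2
  have p1 := nsq_nonneg w
  have p2 := nsq_nonneg (HH σ E V *ᵥ w)
  have q1 : (R σ E s V x x).im / s ≤ (R σ E s' V x x).im / s' := by
    rw [n1, n2]
    have : s' ^ 2 ≤ s ^ 2 := pow_le_pow_left₀ hs'.le hss 2
    nlinarith
  have q2 : s' * (R σ E s' V x x).im ≤ s * (R σ E s V x x).im := by
    have e1 : (R σ E s' V x x).im = s' * (nsq (HH σ E V *ᵥ w) + s ^ 2 * nsq w) := by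
      rw [← n1]
      field_simp
    have e2 : (R σ E s V x x).im = s * (nsq (HH σ E V *ᵥ w) + s' ^ 2 * nsq w) := by
      rw [← n2]
      field_simp
    rw [e1, e2]
    have : s' ^ 2 ≤ s ^ 2 := pow_le_pow_left₀ hs'.le hss 2
    nlinarith
  refine ⟨q2, q1, ?_⟩
  -- the difference
  have hdiff : R σ E s' V x x - R σ E s V x x =
      (-(((s : ℂ) - s') * Complex.I)) * w x := by
    have h1 : (R σ E s' V *ᵥ (Pi.single x (1 : ℂ))) x - (R σ E s V *ᵥ (Pi.single x (1 : ℂ))) x =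
        ((HZ σ E s V - HZ σ E s' V) *ᵥ w) x := by
      rw [hw1, hw2, Matrix.sub_mulVec]
      rfl
    have h2 : HZ σ E s V - HZ σ E s' V = (-(((s : ℂ) - s') * Complex.I)) •
        (1 : Matrix (T d L) (T d L) ℂ) := by
      rw [HZ_HH, HZ_HH]
      ext a b
      simp only [Matrix.sub_apply, Matrix.smul_apply, smul_eq_mul]
      ring
    rw [h2, Matrix.smul_mulVec, Matrix.one_mulVec] at h1
    simpa [Matrix.mulVec_single_one] using h1
  have hwx : ‖w x‖ ^ 2 ≤ (R σ E s V x x).im / s * ((R σ E s' V x x).im / s') := by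
    have h1 : w x = (fun b => R σ E s V x b) ⬝ᵥ (R σ E s' V *ᵥ (Pi.single x (1 : ℂ))) := by
      rw [hw3]
      rfl
    rw [h1]
    refine (cs _ _).trans ?_
    rw [col_nsq hs']
    have h2 : nsq (fun b => R σ E s V x b) = (R σ E s V x x).im / s := by
      rw [← R_ward hs]
      rfl
    rw [h2]
  have hIm : 0 ≤ (R σ E s V x x).im := R_im_nonneg hs V x
  have hIm' : 0 ≤ (R σ E s' V x x).im := R_im_nonneg hs' V x
  have h3 : ‖w x‖ ≤ (R σ E s V x x).im / s' := by
    have h4 : (R σ E s' V x x).im ≤ s / s' * (R σ E s V x x).im := by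
      rw [div_mul_eq_mul_div, le_div_iff₀ hs']
      linarith
    have h5 : (R σ E s V x x).im / s * ((R σ E s' V x x).im / s') ≤
        ((R σ E s V x x).im / s') ^ 2 := by
      calc (R σ E s V x x).im / s * ((R σ E s' V x x).im / s')
          ≤ (R σ E s V x x).im / s * ((s / s' * (R σ E s V x x).im) / s') := by
            gcongr
        _ = ((R σ E s V x x).im / s') ^ 2 := by
            field_simp
    exact abs_le_of_sq_le_sq' (hwx.trans h5) (by positivity) |>.2
  rw [hdiff, norm_mul, norm_neg, norm_mul, Complex.norm_I, mul_one]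
  have h6 : ‖(s : ℂ) - s'‖ = s - s' := by
    rw [← Complex.ofReal_sub, Complex.norm_real, Real.norm_of_nonneg (by linarith)]
  rw [h6]
  calc (s - s') * ‖w x‖ ≤ s * ((R σ E s V x x).im / s') :=
        mul_le_mul (by linarith) h3 (norm_nonneg _) hs.le
    _ = s / s' * (R σ E s V x x).im := by ring

end Run7.h842.HD
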