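import Pool.Agent.Run7.h442.HD.Iface

/-! Piece LOW of project HD: the density of the low momenta is exponentially small. -/

set_option autoImplicit false

open scoped BigOperators
open MeasureTheory

namespace Run7.h842.HD

open Pool.Agent.W788.MFP.Four Pool.Agent.W788.BK
open Run7.h442.HD

variable {L : ℕ} [NeZero L]

theorem cr_sq_le (q : ZMod L) : (cr q) ^ 2 ≤ 1 := by
  have h1 : ‖(ZMod.stdAddChar q : ℂ)‖ = 1 := AddChar.norm_apply _ _
  have h2 : |cr q| ≤ 1 := by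
    rw [← h1]
    exact Complex.abs_re_le_norm _
  rw [← sq_abs]
  nlinarith [abs_nonneg (cr q)]

theorem cr_sq_eq (q : ZMod L) : (cr q) ^ 2 = 1 / 2 + (ZMod.stdAddChar (q * 2) : ℂ).re / 2 := by
  have h1 : ‖(ZMod.stdAddChar q : ℂ)‖ = 1 := AddChar.norm_apply _ _
  have h2 : (ZMod.stdAddChar (q * 2) : ℂ) = (ZMod.stdAddChar q : ℂ) * (ZMod.stdAddChar q : ℂ) := by
    rw [mul_two, AddChar.map_add_eq_mul]
  have h3 : (ZMod.stdAddChar q : ℂ).re ^ 2 + (ZMod.stdAddChar q : ℂ).im ^ 2 = 1 := by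
    have h4 : Complex.normSq (ZMod.stdAddChar q : ℂ) = 1 := by
      rw [Complex.normSq_eq_norm_sq, h1, one_pow]
    rw [Complex.normSq_apply] at h4
    linarith
  rw [h2, Complex.mul_re]
  unfold cr
  nlinarith

theorem sum_cr (hL : 3 ≤ L) : ∑ q : ZMod L, ((cr q) ^ 2 - 1 / 2) = 0 := by
  classical
  have h2 : (2 : ZMod L) ≠ 0 := by
    intro h
    have h3 : ((2 : ℕ) : ZMod L) = 0 := by exact_mod_cast h
    rw [ZMod.natCast_eq_zero_iff] at h3
    have := Nat.le_of_dvd (by norm_num) h3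
    omega
  have h4 := AddChar.sum_mulShift (R' := ℂ) (ψ := (ZMod.stdAddChar : AddChar (ZMod L) ℂ))
    (2 : ZMod L) (ZMod.isPrimitive_stdAddChar L)
  rw [if_neg h2] at h4
  have h5 : ∑ q : ZMod L, ((cr q) ^ 2 - 1 / 2) =
      (∑ q : ZMod L, (ZMod.stdAddChar (q * 2) : ℂ)).re / 2 := by
    rw [Complex.re_sum, Finset.sum_div]
    refine Finset.sum_congr rfl fun q _ => ?_
    rw [cr_sq_eq]
    ring
  rw [h5, h4]
  simp

theorem exp_bd {y : ℝ} (hy : |y| ≤ 1) : Real.exp y ≤ 1 + y + y ^ 2 := by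
  have := Real.abs_exp_sub_one_sub_id_le hy
  have h2 := (abs_le.1 this).2
  linarith

theorem avg_exp (hL : 3 ≤ L) :
    (L : ℝ)⁻¹ * ∑ q : ZMod L, Real.exp (((cr q) ^ 2 - 1 / 2) / 2) ≤ Real.exp (1 / 16) := by
  have hL0 : (0 : ℝ) < L := by
    have : 0 < L := by omega
    exact_mod_cast this
  have h1 : ∀ q : ZMod L, Real.exp (((cr q) ^ 2 - 1 / 2) / 2) ≤
      1 + ((cr q) ^ 2 - 1 / 2) / 2 + 1 / 16 := by
    intro q
    have h2 := cr_sq_le q
    have h3 : 0 ≤ (cr q) ^ 2 := sq_nonneg _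
    have h4 : |((cr q) ^ 2 - 1 / 2) / 2| ≤ 1 / 4 := by
      rw [abs_le]
      constructor <;> linarith
    have h5 := exp_bd (h4.trans (by norm_num))
    have h6 : (((cr q) ^ 2 - 1 / 2) / 2) ^ 2 ≤ 1 / 16 := by
      rw [← sq_abs]
      nlinarith [abs_nonneg (((cr q) ^ 2 - 1 / 2) / 2)]
    linarith
  have h2 : ∑ q : ZMod L, Real.exp (((cr q) ^ 2 - 1 / 2) / 2) ≤ L * (1 + 1 / 16) := by
    refine (Finset.sum_le_sum fun q _ => h1 q).trans (le_of_eq ?_)
    have h3 : ∑ q : ZMod L, (1 + ((cr q) ^ 2 - 1 / 2) / 2 + 1 / 16) =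
        ∑ _q : ZMod L, (1 + 1 / 16 : ℝ) + (∑ q : ZMod L, ((cr q) ^ 2 - 1 / 2)) / 2 := by
      rw [Finset.sum_div, ← Finset.sum_add_distrib]
      exact Finset.sum_congr rfl fun q _ => by ring
    rw [h3, sum_cr hL, Finset.sum_const, Finset.card_univ, ZMod.card, nsmul_eq_mul]
    ring
  have h3 : (1 : ℝ) + 1 / 16 ≤ Real.exp (1 / 16) := by
    have := Real.add_one_le_exp (1 / 16 : ℝ)
    linarith
  calc (L : ℝ)⁻¹ * ∑ q : ZMod L, Real.exp (((cr q) ^ 2 - 1 / 2) / 2)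
      ≤ (L : ℝ)⁻¹ * (L * (1 + 1 / 16)) := by gcongr
    _ = 1 + 1 / 16 := by field_simp
    _ ≤ _ := h3

theorem low : Run7.h442.HD.S_LOW := by
  intro d L _ hL
  have hL0 : (0 : ℝ) < L := by
    have : 0 < L := by omega
    exact_mod_cast this
  have hN : (0 : ℝ) < NN d L := by
    unfold NN
    positivity
  have h1 : ∀ P : T d L, lo P ≤ Real.exp (-(d / 8 : ℝ)) *
      ∏ i, Real.exp (((cr (P i)) ^ 2 - 1 / 2) / 2) := by
    intro P
    have h2 : Real.exp (-(d / 8 : ℝ)) * ∏ i, Real.exp (((cr (P i)) ^ 2 - 1 / 2) / 2) =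
        Real.exp ((∑ i, (cr (P i)) ^ 2 - 3 / 4 * d) / 2) := by
      rw [← Real.exp_sum, ← Real.exp_add]
      congr 1
      rw [← Finset.sum_div, Finset.sum_sub_distrib, Finset.sum_const, Finset.card_univ,
        Fintype.card_fin, nsmul_eq_mul]
      ring
    rw [h2]
    unfold lo
    split_ifs with h
    · have h3 : (3 / 4 : ℝ) * d < ∑ i, cr (P i) ^ 2 := h
      rw [← Real.exp_zero]
      apply Real.exp_le_exp.2
      linarith
    · exact (Real.exp_pos _).le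
  have h2 : lwh d L ≤ Real.exp (-(d / 8 : ℝ)) *
      ((L : ℝ)⁻¹ * ∑ q : ZMod L, Real.exp (((cr q) ^ 2 - 1 / 2) / 2)) ^ d := by
    have h3 : ((L : ℝ)⁻¹ * ∑ q : ZMod L, Real.exp (((cr q) ^ 2 - 1 / 2) / 2)) ^ d =
        (NN d L)⁻¹ * ∑ P : T d L, ∏ i, Real.exp (((cr (P i)) ^ 2 - 1 / 2) / 2) := by
      have h := Finset.prod_univ_sum (fun _ : Fin d => (Finset.univ : Finset (ZMod L)))
        (fun _ q => Real.exp (((cr q) ^ 2 - 1 / 2) / 2))
      rw [Fintype.piFinset_univ, Finset.prod_const, Finset.card_univ, Fintype.card_fin] at h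
      rw [mul_pow, h, inv_pow]
      rfl
    rw [h3]
    unfold lwh
    calc (NN d L)⁻¹ * ∑ P : T d L, lo P ≤ (NN d L)⁻¹ * ∑ P : T d L,
          (Real.exp (-(d / 8 : ℝ)) * ∏ i, Real.exp (((cr (P i)) ^ 2 - 1 / 2) / 2)) := by
          gcongr with P _
          exact h1 P
      _ = _ := by
          rw [← Finset.mul_sum]
          ring
  refine h2.trans ?_
  have h4 : ((L : ℝ)⁻¹ * ∑ q : ZMod L, Real.exp (((cr q) ^ 2 - 1 / 2) / 2)) ^ d ≤
      (Real.exp (1 / 16)) ^ d := by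
    refine pow_le_pow_left₀ ?_ (avg_exp hL) d
    exact mul_nonneg (by positivity) (Finset.sum_nonneg fun q _ => (Real.exp_pos _).le)
  calc Real.exp (-(d / 8 : ℝ)) *
      ((L : ℝ)⁻¹ * ∑ q : ZMod L, Real.exp (((cr q) ^ 2 - 1 / 2) / 2)) ^ d
      ≤ Real.exp (-(d / 8 : ℝ)) * (Real.exp (1 / 16)) ^ d := by gcongr
    _ = Real.exp (-(d / 16 : ℝ)) := by
        rw [← Real.exp_nat_mul, ← Real.exp_add]
        congr 1
        ring

end Run7.h842.HD
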