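import Pool.Agent.Run7.h442.HD.Iface

/-! Piece MOM of project HD: higher moments from the Efron-Stein inequality. -/

set_option autoImplicit false

open scoped BigOperators
open MeasureTheory

namespace Run7.h842.HD

open Run7.h442.HD
open Run7.h108.GL (Law Γ es ae_cube)

theorem pow_sub_bd {a b M : ℝ} (ha : 0 ≤ a) (hb : 0 ≤ b) (haM : a ≤ M) (hbM : b ≤ M) (n : ℕ) :
    |a ^ n - b ^ n| ≤ n * |a - b| * M ^ (n - 1) := by
  induction n with
  | zero => simp
  | succ n ih =>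
    have hM : 0 ≤ M := ha.trans haM
    have e1 : a ^ (n + 1) - b ^ (n + 1) = a * (a ^ n - b ^ n) + (a - b) * b ^ n := by ring
    rw [e1]
    have h1 : |a * (a ^ n - b ^ n)| ≤ M * (n * |a - b| * M ^ (n - 1)) := by
      rw [abs_mul, abs_of_nonneg ha]
      exact mul_le_mul haM ih (abs_nonneg _) hM
    have h2 : |(a - b) * b ^ n| ≤ |a - b| * M ^ n := by
      rw [abs_mul, abs_of_nonneg (pow_nonneg hb n)]
      exact mul_le_mul_of_nonneg_left (pow_le_pow_left₀ hb hbM n) (abs_nonneg _)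
    have h3 : M * (n * |a - b| * M ^ (n - 1)) ≤ n * |a - b| * M ^ n := by
      rcases Nat.eq_zero_or_pos n with h | h
      · subst h; simp
      · have : M ^ n = M * M ^ (n - 1) := by
          rw [← pow_succ']
          congr 1
          omega
        rw [this]
        apply le_of_eq
        ring
    calc |a * (a ^ n - b ^ n) + (a - b) * b ^ n| ≤ |a * (a ^ n - b ^ n)| + |(a - b) * b ^ n| :=
          abs_add_le _ _
      _ ≤ n * |a - b| * M ^ n + |a - b| * M ^ n := by linarith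
      _ = ((n + 1 : ℕ) : ℝ) * |a - b| * M ^ (n + 1 - 1) := by
          push_cast
          ring_nf

theorem mom : S_MOM := by
  intro _ κ _ _ g c n hg ⟨C, hC⟩ hg0 hn hc hES hsmall
  have hn1 : (1 : ℝ) ≤ n := by exact_mod_cast hn
  have h4n : (4 : ℝ) ≤ 4 ^ n := by
    calc (4 : ℝ) = 4 ^ 1 := by norm_num
      _ ≤ 4 ^ n := pow_le_pow_right₀ (by norm_num) hn
  have hc1 : c ≤ 1 := by
    have h1 : (1 : ℝ) ≤ 2 * (n : ℝ) ^ 2 * 4 ^ n := by nlinarith
    nlinarith
  -- bounded continuous powers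
  have hCn : ∀ k : ℕ, Pool.Agent.Run7.h47.BC fun V : κ → ℝ => g V ^ k := fun k =>
    Pool.Agent.Run7.h47.BC.powR ⟨hg, C, fun V => by rw [Real.norm_eq_abs]; exact hC V⟩ k
  have hint : ∀ k : ℕ, Integrable (fun V : κ → ℝ => g V ^ k) (Γ κ) := fun k =>
    ((Run7.h108.GL.BC.of47 (hCn k)).intR)
  set m := ∫ V, g V ^ n ∂(Γ κ) with hm
  -- Efron-Stein
  have hF : Pool.Agent.Run7.h47.BC fun V : κ → ℝ => ((g V ^ n : ℝ) : ℂ) := by
    obtain ⟨c1, C1, h1⟩ := hCn n
    exact ⟨Complex.continuous_ofReal.comp c1, C1, fun V => by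
      rw [Complex.norm_real]
      exact h1 V⟩
  have hes := es hF
  have hmean : ∫ U, ((g U ^ n : ℝ) : ℂ) ∂(Γ κ) = (m : ℂ) := integral_ofReal
  rw [hmean] at hes
  have hvar : ∫ V, ‖((g V ^ n : ℝ) : ℂ) - (m : ℂ)‖ ^ 2 ∂(Γ κ) =
      ∫ V, g V ^ (2 * n) ∂(Γ κ) - m ^ 2 := by
    have e1 : ∀ V, ‖((g V ^ n : ℝ) : ℂ) - (m : ℂ)‖ ^ 2 =
        g V ^ (2 * n) - 2 * m * g V ^ n + m ^ 2 := by
      intro V
      rw [← Complex.ofReal_sub, Complex.norm_real, Real.norm_eq_abs, sq_abs]
      ring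
    rw [integral_congr_ae (Filter.Eventually.of_forall e1)]
    have i1 := hint (2 * n)
    have i2 := (hint n).const_mul (2 * m)
    have j1 : ∫ V, (g V ^ (2 * n) - 2 * m * g V ^ n + m ^ 2) ∂(Γ κ) =
        ∫ V, (g V ^ (2 * n) - 2 * m * g V ^ n) ∂(Γ κ) + ∫ _V, m ^ 2 ∂(Γ κ) :=
      integral_add (i1.sub i2) (integrable_const _)
    have j2 : ∫ V, (g V ^ (2 * n) - 2 * m * g V ^ n) ∂(Γ κ) =
        ∫ V, g V ^ (2 * n) ∂(Γ κ) - ∫ V, 2 * m * g V ^ n ∂(Γ κ) := integral_sub i1 i2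
    rw [j1, j2, integral_const_mul, integral_const]
    simp only [probReal_univ, smul_eq_mul, one_mul]
    rw [← hm]
    ring
  rw [hvar] at hes
  -- the sum over the sites
  have hupd : ∀ y, Continuous fun V : κ → ℝ => Function.update V y 0 := fun y =>
    continuous_id.update y continuous_const
  have hBy : ∀ y, Integrable (fun V : κ → ℝ => ‖((g V ^ n : ℝ) : ℂ) -
      ((g (Function.update V y 0) ^ n : ℝ) : ℂ)‖ ^ 2) (Γ κ) := by
    intro y
    refine ((Run7.h108.GL.BC.sub (Run7.h108.GL.BC.of47 hF) ?_).nsq).intR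
    obtain ⟨c1, C1, h1⟩ := hF
    exact Run7.h108.GL.BC.of47 ⟨c1.comp (hupd y), C1, fun V => h1 _⟩
  have hsum : ∑ y, ∫ V, ‖((g V ^ n : ℝ) : ℂ) -
      ((g (Function.update V y 0) ^ n : ℝ) : ℂ)‖ ^ 2 ∂(Γ κ) ≤
      1 / 8 * ∫ V, g V ^ (2 * n) ∂(Γ κ) := by
    rw [← integral_finsetSum _ fun y _ => hBy y, ← integral_const_mul]
    refine integral_mono_ae (integrable_finsetSum _ fun y _ => hBy y)
      ((hint (2 * n)).const_mul _) ?_
    filter_upwards [ae_cube] with V hV
    have h1 := hES V hV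
    have hterm : ∀ y, ‖((g V ^ n : ℝ) : ℂ) - ((g (Function.update V y 0) ^ n : ℝ) : ℂ)‖ ^ 2 ≤
        (n : ℝ) ^ 2 * (2 * g V) ^ (2 * (n - 1)) * (g V - g (Function.update V y 0)) ^ 2 := by
      intro y
      have h2 : (g V - g (Function.update V y 0)) ^ 2 ≤ g V ^ 2 := by
        have h3 : (g V - g (Function.update V y 0)) ^ 2 ≤
            ∑ y, (g V - g (Function.update V y 0)) ^ 2 :=
          Finset.single_le_sum (f := fun y => (g V - g (Function.update V y 0)) ^ 2)
            (fun _ _ => sq_nonneg _) (Finset.mem_univ y)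
        have h4 : c * g V ^ 2 ≤ 1 * g V ^ 2 := mul_le_mul_of_nonneg_right hc1 (sq_nonneg _)
        linarith
      have h5 : |g V - g (Function.update V y 0)| ≤ g V := abs_le_of_sq_le_sq h2 (hg0 V)
      have h6 : g (Function.update V y 0) ≤ 2 * g V := by
        have := (abs_le.1 h5).1
        linarith
      have h7 := pow_sub_bd (hg0 V) (hg0 (Function.update V y 0)) (by linarith [hg0 V]) h6 n
      rw [← Complex.ofReal_sub, Complex.norm_real, Real.norm_eq_abs]
      calc |g V ^ n - g (Function.update V y 0) ^ n| ^ 2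
          ≤ (n * |g V - g (Function.update V y 0)| * (2 * g V) ^ (n - 1)) ^ 2 :=
            pow_le_pow_left₀ (abs_nonneg _) h7 2
        _ = (n : ℝ) ^ 2 * (2 * g V) ^ (2 * (n - 1)) * (g V - g (Function.update V y 0)) ^ 2 := by
            rw [mul_pow, mul_pow, sq_abs, ← pow_mul, mul_comm (n - 1) 2]
            ring
    calc ∑ y, ‖((g V ^ n : ℝ) : ℂ) - ((g (Function.update V y 0) ^ n : ℝ) : ℂ)‖ ^ 2
        ≤ ∑ y, (n : ℝ) ^ 2 * (2 * g V) ^ (2 * (n - 1)) * (g V - g (Function.update V y 0)) ^ 2 :=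
          Finset.sum_le_sum fun y _ => hterm y
      _ = (n : ℝ) ^ 2 * (2 * g V) ^ (2 * (n - 1)) *
            ∑ y, (g V - g (Function.update V y 0)) ^ 2 := by rw [Finset.mul_sum]
      _ ≤ (n : ℝ) ^ 2 * (2 * g V) ^ (2 * (n - 1)) * (c * g V ^ 2) := by
          have : 0 ≤ (n : ℝ) ^ 2 * (2 * g V) ^ (2 * (n - 1)) := by
            have := hg0 V
            positivity
          exact mul_le_mul_of_nonneg_left h1 this
      _ = ((n : ℝ) ^ 2 * 4 ^ (n - 1) * c) * g V ^ (2 * n) := by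
          have e1 : (2 * g V) ^ (2 * (n - 1)) = 4 ^ (n - 1) * g V ^ (2 * (n - 1)) := by
            rw [mul_pow, pow_mul]
            norm_num
          have e2 : g V ^ (2 * n) = g V ^ (2 * (n - 1)) * g V ^ 2 := by
            rw [← pow_add]
            congr 1
            omega
          rw [e1, e2]
          ring
      _ ≤ 1 / 8 * g V ^ (2 * n) := by
          refine mul_le_mul_of_nonneg_right ?_ (pow_nonneg (hg0 V) _)
          have e3 : (4 : ℝ) ^ n = 4 * 4 ^ (n - 1) := by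
            rw [← pow_succ']
            congr 1
            omega
          rw [e3] at hsmall
          linarith
  have hes' := hes.trans hsum
  have hpos : 0 ≤ m ^ 2 := sq_nonneg m
  nlinarith

end Run7.h842.HD
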